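import Pool.Agent.H988.QB.Cor2

/-!
# Eigenfunctions of the Anderson model in large boxes: quantum ergodicity up to the singular spectrum

`Δ_ω = -Δ + ω` on `ℤ^d`, `ω_j` iid with any law of bounded support which is not a point mass, for
instance `P(ω_j = ±1) = 1/2`; any `d ≥ 1`, no assumption on the size of the disorder. An observable
is a family `A_ω` of bounded operators, `‖A_ω‖ ≤ M`, which depend measurably on `ω` and are almost
surely covariant under translations; no locality and no self-adjointness is assumed.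

Infinite volume: `p` is the part of `δ_0` in the absolutely continuous subspace of `Δ_ω`, `κ` the
density of states of this subspace, `F` the microcanonical average of `A`
(`E⟨e^{-itΔ} p, A p⟩ = ∫ e^{itE} F(E) dκ(E)`), `m_ω` the spectral measure of the singular rest
`δ_0 - p`, and `s(g) = E ∫ g dm_ω` the singular weight of a continuous energy window
`0 ≤ g ≤ 1`.

Finite volume: let `(u_n)` be any orthonormal family of eigenfunctions (for instance a complete one)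
of `Δ_ω` in the box `Λ = [-L, L]^d` with zero boundary conditions, with eigenvalues `E_n`, and let
`a` be a slowly varying weight: `|a| ≤ 1` and `|a(x) - a(y)| ≤ δ` for neighbours `x, y`.

* For every `ε > 0` there is a continuous function `f` of the energy with `∫ |F - f|² dκ ≤ ε` such
  that for every window `g` there is `δ > 0` with the following property. In all large boxes,
  `|Λ|⁻¹ ∑ g(E_n) |⟨u_m, a A u_n⟩ - f(E_n) ⟨u_m, a u_n⟩|² ≤ 4 M² s(g) + ε`, the sum over all pairs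
  with `|E_m - E_n| ≤ δ`, in mean over `ω` and uniformly in the eigenfunctions and the weights.
* For every `λ ≠ 0`, `ε > 0` and `g` there is `δ > 0` such that in all large boxes
  `|Λ|⁻¹ ∑ g(E_n) |⟨u_m, a A u_n⟩|² ≤ M² s(g) + ε`, the sum over all pairs with
  `|E_m - E_n - λ| ≤ δ`, in the same sense.

The terms `m = n` of the first part say that in the windows where the spectrum is absolutely
continuous most of the eigenfunctions of large boxes are quantum ergodic, also locally (in every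
region seen by `a`, on all scales): `⟨u_n, a A u_n⟩` is close to `f(E_n) ⟨u_n, a u_n⟩`, with a
non-random function of the energy. The other terms say that the matrix elements for pairs of nearby
energies, or of energies with a given nonzero difference, are small. Where this fails for a positive
fraction of the eigenfunctions of large boxes there is singular spectrum. (If the absolutely
continuous subspace is zero, then `s(g)` is the integral of `g` over the density of states, and the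
theorem says nothing.)
-/

set_option autoImplicit false

open MeasureTheory Filter Topology
open scoped BigOperators ENNReal NNReal InnerProductSpace ComplexConjugate

namespace Pool.Agent.Results.MP_d0f69c_mp.ErgodicEigenfunctions

/-- `ℓ²(ℤ^d)` -/
abbrev L2 (d : ℕ) : Type := lp (fun _ : Fin d → ℤ => ℂ) 2

/-- potentials on `ℤ^d` -/
abbrev Pot (d : ℕ) : Type := (Fin d → ℤ) → ℝ

/-- the operator of the problem, `(Δ_ω u)(j) = -∑_{|n|=1} (u(j+n) - u(j)) + ω_j u(j)` (the unit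
vectors `n` are `± e_i`) -/
noncomputable def H {d : ℕ} (ω : Pot d) (u : (Fin d → ℤ) → ℂ) (j : Fin d → ℤ) : ℂ :=
  -(∑ i : Fin d, ((u (j + Pi.single i 1) - u j) + (u (j - Pi.single i 1) - u j))) + (ω j : ℂ) * u j

/-- `U t = e^{-itΔ_ω}`: norm preserving maps of `ℓ²(ℤ^d)` with `U 0 = 1` and `i ∂_t (U_t u) = Δ_ω U_t u`
at every site -/
structure IsPropagator {d : ℕ} (ω : Pot d) (U : ℝ → L2 d → L2 d) : Prop where
  zero : ∀ u, U 0 u = u
  norm : ∀ t u, ‖U t u‖ = ‖u‖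
  schrodinger : ∀ u t j, HasDerivAt (fun s => (U s u) j)
    (-Complex.I * H ω (fun k => (U t u) k) j) t

/-- linear operators -/
def Linear {d : ℕ} (A : Pot d → L2 d → L2 d) : Prop :=
  ∀ (ω : Pot d) (c : ℂ) (u w : L2 d), A ω (c • u + w) = c • A ω u + A ω w

/-- `‖A_ω‖ ≤ M` for all `ω` -/
def BoundedBy {d : ℕ} (M : ℝ) (A : Pot d → L2 d → L2 d) : Prop :=
  ∀ (ω : Pot d) (u : L2 d), ‖A ω u‖ ≤ M * ‖u‖

/-- `A_ω u` depends measurably on `ω` -/
def MeasurableField {d : ℕ} (A : Pot d → L2 d → L2 d) : Prop :=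
  ∀ (u : L2 d) (j : Fin d → ℤ), Measurable fun ω => (A ω u) j

/-- covariant under all translations at `ω`: if `w = u(· + z)` then
`A_{ω(· + z)} w = (A_ω u)(· + z)` -/
def CovariantAt {d : ℕ} (A : Pot d → L2 d → L2 d) (ω : Pot d) : Prop :=
  ∀ (z : Fin d → ℤ) (u w : L2 d), (∀ j, w j = u (j + z)) →
    ∀ j, (A (fun k => ω (k + z)) w) j = (A ω u) (j + z)

/-- the law of iid variables with law `μ` on `ℤ^d` -/
noncomputable def iid (d : ℕ) (μ : Measure ℝ) : Measure (Pot d) :=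
  Measure.infinitePi fun _ => μ

/-- `A_ω` is an observable: linear operators with `‖A_ω‖ ≤ M`, measurable in `ω`, and almost surely
covariant under translations -/
structure IsObservable {d : ℕ} (μ : Measure ℝ) (M : ℝ) (A : Pot d → L2 d → L2 d) : Prop where
  linear : Linear A
  bounded : BoundedBy M A
  measurable : MeasurableField A
  covariant : ∀ᵐ ω ∂(iid d μ), CovariantAt A ω

/-- `m` is the spectral measure of `u`: the finite measure with
`⟨u, e^{-itΔ_ω} u⟩ = ∫ e^{-itE} dm(E)` -/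
def IsSpectral {d : ℕ} (U : ℝ → L2 d → L2 d) (u : L2 d) (m : Measure ℝ) : Prop :=
  IsFiniteMeasure m ∧
    ∀ t : ℝ, ⟪u, U t u⟫_ℂ = ∫ E : ℝ, Complex.exp (-(Complex.I * t * E)) ∂m

/-- `u` is in the absolutely continuous subspace -/
def IsAC {d : ℕ} (U : ℝ → L2 d → L2 d) (u : L2 d) : Prop :=
  ∃ m : Measure ℝ, IsSpectral U u m ∧ m ≪ volume

/-- `p` is the orthogonal projection of `u` to the absolutely continuous subspace -/
def IsACPart {d : ℕ} (U : ℝ → L2 d → L2 d) (u p : L2 d) : Prop :=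
  IsAC U p ∧ ∀ w : L2 d, IsAC U w → ⟪u - p, w⟫_ℂ = 0

/-- the expectation `E⟨φ, ψ⟩` -/
noncomputable def mean {d : ℕ} (μ : Measure ℝ) (φ ψ : Pot d → L2 d) : ℂ :=
  ∫ ω, ⟪φ ω, ψ ω⟫_ℂ ∂(iid d μ)

/-- `p(ω)` is the part of `δ_0` in the absolutely continuous subspace of `Δ_ω`, `m_ω` is the
spectral measure of the singular rest `δ_0 - p(ω)`, and the absolutely continuous finite measure
`κ` is the density of states of the absolutely continuous subspace, that is,
`E ⟨p, e^{-itΔ_ω} p⟩ = ∫ e^{-itE} dκ(E)` for all `t` -/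
structure IsDecomposition {d : ℕ} (μ : Measure ℝ) (U : Pot d → ℝ → L2 d → L2 d)
    (p : Pot d → L2 d) (m : Pot d → Measure ℝ) (κ : Measure ℝ) : Prop where
  meas : AEStronglyMeasurable p (iid d μ)
  part : ∀ᵐ ω ∂(iid d μ), IsACPart (U ω) (lp.single 2 0 1) (p ω)
  rest : ∀ᵐ ω ∂(iid d μ), IsSpectral (U ω) (lp.single 2 0 1 - p ω) (m ω)
  finite : IsFiniteMeasure κ
  ac : κ ≪ volume
  fourier : ∀ t : ℝ, mean μ p (fun ω => U ω t (p ω)) =
    ∫ E : ℝ, Complex.exp (-(Complex.I * t * E)) ∂κ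

/-- the bounded Borel function `F` is the microcanonical average of the observable `A`:
`E ⟨e^{-itΔ_ω} p, A_ω p⟩ = ∫ e^{itE} F(E) dκ(E)` for all `t`. This determines `F` up to `κ`-null
sets. -/
structure IsMicrocanonical {d : ℕ} (μ : Measure ℝ) (U : Pot d → ℝ → L2 d → L2 d)
    (p : Pot d → L2 d) (κ : Measure ℝ) (A : Pot d → L2 d → L2 d)
    (F : ℝ → ℂ) : Prop where
  meas : Measurable F
  bounded : ∃ M : ℝ, ∀ E, ‖F E‖ ≤ M
  formula : ∀ t : ℝ, mean μ (fun ω => U ω t (p ω)) (fun ω => A ω (p ω)) =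
    ∫ E : ℝ, Complex.exp (Complex.I * t * E) * F E ∂κ

/-- continuous energy windows with values between zero and one -/
def IsWindow (g : ℝ → ℝ) : Prop := Continuous g ∧ ∀ E, 0 ≤ g E ∧ g E ≤ 1

/-- the singular weight of the window `g`: `E ∫ g dm_ω` -/
noncomputable def singularWeight {d : ℕ} (μ : Measure ℝ) (m : Pot d → Measure ℝ) (g : ℝ → ℝ) : ℝ :=
  ∫ ω, (∫ E, g E ∂(m ω)) ∂(iid d μ)

/-- the box `[-L, L]^d` -/
noncomputable def Box (d L : ℕ) : Finset (Fin d → ℤ) :=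
  Fintype.piFinset fun _ => Finset.Icc (-(L : ℤ)) L

/-- `u` is an orthonormal family of eigenfunctions of the restriction of `Δ_ω` to the box
`[-L, L]^d` (functions which vanish outside of the box), with eigenvalues `E` -/
structure IsEigenfamily {d : ℕ} (L : ℕ) (ω : Pot d) {ι : Type} (u : ι → L2 d) (E : ι → ℝ) :
    Prop where
  orthonormal : Orthonormal ℂ u
  out : ∀ n x, x ∉ Box d L → u n x = 0
  eigen : ∀ n, ∀ x ∈ Box d L, H ω (fun k => (u n) k) x = (E n : ℂ) * u n x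

/-- slowly varying weights: `|a| ≤ 1` and `|a(x + e_i) - a(x)| ≤ δ` -/
def IsWeight {d : ℕ} (δ : ℝ) (a : (Fin d → ℤ) → ℝ) : Prop :=
  (∀ x, |a x| ≤ 1) ∧ ∀ x (i : Fin d), |a (x + Pi.single i 1) - a x| ≤ δ

/-- the matrix element `⟨u, a w⟩` (`u` vanishes outside of the box) -/
noncomputable def element {d : ℕ} (L : ℕ) (a : (Fin d → ℤ) → ℝ) (u w : L2 d) : ℂ :=
  ∑ x ∈ Box d L, conj (u x) * ((a x : ℂ) * w x)

/-- the sum of `g(E_n) |⟨u_m, a A u_n⟩ - f(E_n) ⟨u_m, a u_n⟩|²` over all pairs with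
`|E_m - E_n - lam| ≤ δ` -/
noncomputable def pairSum {d : ℕ} {ι : Type} [Fintype ι] (L : ℕ) (u : ι → L2 d) (E : ι → ℝ)
    (A : L2 d → L2 d) (a : (Fin d → ℤ) → ℝ) (f : ℝ → ℂ) (g : ℝ → ℝ) (lam δ : ℝ) : ℝ :=
  ∑ n, ∑ m, if |E m - E n - lam| ≤ δ then
    g (E n) * ‖element L a (u m) (A (u n)) - f (E n) * element L a (u m) (u n)‖ ^ 2 else 0

/-- for some `δ > 0` the normalized sums over pairs are in all large boxes, in mean over `ω` and
uniformly in the eigenfunctions and the weights, at most `c`: they are bounded by an integrable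
random variable `R` with `E R ≤ c` -/
def AsymptoticallyAtMost {d : ℕ} (μ : Measure ℝ) (A : Pot d → L2 d → L2 d) (f : ℝ → ℂ)
    (g : ℝ → ℝ) (lam c : ℝ) : Prop :=
  ∃ δ : ℝ, 0 < δ ∧ ∃ L₀ : ℕ, ∀ L : ℕ, L₀ ≤ L → ∃ R : Pot d → ℝ,
    Integrable R (iid d μ) ∧ ∫ ω, R ω ∂(iid d μ) ≤ c ∧
    ∀ᵐ ω ∂(iid d μ), ∀ (ι : Type) [Fintype ι] (u : ι → L2 d) (E : ι → ℝ),
      IsEigenfamily L ω u E → ∀ a : (Fin d → ℤ) → ℝ, IsWeight δ a →
        pairSum L u E (A ω) a f g lam δ / (Box d L).card ≤ R ω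

open Pool.Agent.H5R2 Pool.Agent.Y662.ERG Pool.Agent.H988.WM Pool.Agent.H988.QB

theorem sol_of_prop {d : ℕ} {ω : (Fin d → ℤ) → ℝ} {U : ℝ → L2 d → L2 d}
    (hU : IsPropagator ω U) (u : L2 d) :
    NB.IsSol (-1) (fun x => 2 * d + ω x) (fun t => U t u) (fun _ => 0) := by
  refine ⟨fun T => ⟨‖u‖, fun t _ => (hU.norm t u).le⟩, fun t x => ?_⟩
  have h := hU.schrodinger u t x
  have e := NB.FIN.hop_eq ω (fun k => (U t u) k) x
  have e2 : -Complex.I * (NB.hopf (-1) (fun y => (U t u) y) x +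
      (((fun x => 2 * d + ω x) x : ℝ) : ℂ) * (U t u) x) + ((0 : L2 d) : (Fin d → ℤ) → ℂ) x =
      -Complex.I * H ω (fun k => (U t u) k) x := by
    have e3 : H ω (fun k => (U t u) k) x = -(∑ i : Fin d,
        (((U t u) (x + Pi.single i 1) - (U t u) x) + ((U t u) (x - Pi.single i 1) - (U t u) x))) +
        (ω x : ℂ) * (U t u) x := rfl
    rw [e3, ← e]
    simp
  rw [e2]
  exact h

theorem prop_of_grp {d : ℕ} {ω : (Fin d → ℤ) → ℝ} {W : NB.UG (NB.L2 (NB.Site d))}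
    (hW : NB.IsGrp (-1) (fun x => 2 * d + ω x) W) : IsPropagator ω (fun t u => W.U t u) := by
  refine ⟨W.zero', W.norm', fun u t x => ?_⟩
  have h := (hW u).2 t x
  have e := NB.FIN.hop_eq ω (fun k => (W.U t u) k) x
  have e3 : H ω (fun k => (W.U t u) k) x = -(∑ i : Fin d,
        (((W.U t u) (x + Pi.single i 1) - (W.U t u) x) +
          ((W.U t u) (x - Pi.single i 1) - (W.U t u) x))) + (ω x : ℂ) * (W.U t u) x := rfl
  rw [e3, ← e]
  simpa using h

theorem prop_eq {d : ℕ} {ω : (Fin d → ℤ) → ℝ} {W : NB.UG (NB.L2 (NB.Site d))}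
    (hW : NB.IsGrp (-1) (fun x => 2 * d + ω x) W) {U : ℝ → L2 d → L2 d}
    (hU : IsPropagator ω U) (t : ℝ) (u : L2 d) : U t u = W.U t u := by
  have h := NB.ALL.a_UN d (-1) _ W hW (fun t => U t u) (fun _ => 0)
    continuous_const (sol_of_prop hU u) t
  simpa [hU.zero u] using h

/-- the bounded operator -/
noncomputable def toOp {d : ℕ} (A : L2 d → L2 d)
    (hl : ∀ (c : ℂ) (u w : L2 d), A (c • u + w) = c • A u + A w)
    (hb : ∃ M : ℝ, ∀ u, ‖A u‖ ≤ M * ‖u‖) : L2 d →L[ℂ] L2 d :=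
  have h0 : A 0 = 0 := by
    have h := hl (-1) 0 0
    simpa using h
  LinearMap.mkContinuousOfExistsBound
    { toFun := A
      map_add' := fun u w => by
        have h := hl 1 u w
        rwa [one_smul, one_smul] at h
      map_smul' := fun c u => by
        have h := hl c u 0
        rwa [add_zero, h0, add_zero] at h } hb

theorem obs_of {d : ℕ} {μ : Measure ℝ} [IsProbabilityMeasure μ] {M : ℝ}
    {A : Pot d → L2 d → L2 d} (hA : IsObservable μ M A) :
    ∃ v : Pot d → L2 d →L[ℂ] L2 d, (∀ᵐ ω ∂(iid d μ), ∀ u, v ω u = A ω u) ∧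
      Pool.Agent.R988.NQ.Fld M v ∧ Pool.Agent.R988.NQ.Fld M (Pool.Agent.R988.NQ.adjF v) := by
  have hM := hA.bounded
  have hM0 : 0 ≤ M := by
    have h1 := hM 0 (NB.dl 0)
    rw [NB.STAT.norm_dl, mul_one] at h1
    exact (norm_nonneg _).trans h1
  obtain ⟨W, hWA⟩ : ∃ W : Pot d → L2 d →L[ℂ] L2 d, ∀ ω u, W ω u = A ω u :=
    ⟨fun ω => toOp (A ω) (hA.linear ω) ⟨M, hM ω⟩, fun ω u => rfl⟩
  have hcv : ∀ᵐ V ∂(NB.PP d μ), ∀ (z : NB.Site d)
      (S : NB.L2 (NB.Site d) →L[ℂ] NB.L2 (NB.Site d)), NB.IsShift z S → ∀ ψ,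
        W (fun y => V (y + z)) (S ψ) = S (W V ψ) := by
    have h1 : ∀ᵐ ω ∂(NB.PP d μ), CovariantAt A ω := hA.covariant
    filter_upwards [h1] with ω hω z S hS ψ
    ext j
    rw [hWA, hWA, hω z ψ (S ψ) (fun k => hS ψ k) j, hS]
  have hmW : ∀ (u : L2 d) (j : Fin d → ℤ), Measurable fun ω => (W ω u) j := by
    intro u j
    simp only [hWA]
    exact hA.measurable u j
  obtain ⟨W', hW1, hW2, hW3, hW4⟩ := Pool.Agent.R988.NQ.fix_cov hmW hcv
  have hb' : ∀ V ψ, ‖W' V ψ‖ ≤ M * ‖ψ‖ := by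
    intro V ψ
    rcases hW1 V with h | h
    · rw [h, hWA]
      exact hM V ψ
    · rw [h, zero_apply, norm_zero]
      positivity
  refine ⟨W', ?_, Pool.Agent.R988.NQ.flds hb' hW2 hW3⟩
  have h2 : ∀ᵐ ω ∂(NB.PP d μ), ∀ u, W' ω u = A ω u := by
    filter_upwards [hW4] with ω hω u
    rw [hω, hWA]
  exact h2

theorem box_eq (d L : ℕ) : bx d L = Box d L := rfl

/-- the eigenfunctions -/
theorem ef_of {d L : ℕ} {K : ℝ} {ω : Pot d} (hω : ∀ x, |ω x| ≤ K) {ι : Type} {u : ι → L2 d}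
    {E : ι → ℝ} (h : IsEigenfamily L ω u E) : EF K (bx d L) ω u E := by
  refine ⟨h.orthonormal, h.out, fun n x hx => ?_⟩
  have h1 := h.eigen n x hx
  rw [← h1, Pool.Agent.TH980.IM.HV_apply, Pool.Agent.TH980.IM.cl_eq (hω x)]
  unfold H
  rw [← Finset.sum_neg_distrib]
  congr 1
  refine Finset.sum_congr rfl fun i _ => ?_
  ring

/-- matrix elements -/
theorem el_eq {d L : ℕ} {u : L2 d} (hu : ∀ x, x ∉ Box d L → u x = 0) {a : (Fin d → ℤ) → ℝ}
    (ha : ∀ x, |a x| ≤ 1) (w : L2 d) :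
    ⟪u, NB.MOM.mulop a 1 ha w⟫_ℂ = element L a u w := by
  rw [lp.inner_eq_tsum]
  unfold element
  rw [tsum_eq_sum (s := Box d L)]
  · refine Finset.sum_congr rfl fun x _ => ?_
    rw [RCLike.inner_apply']
    rfl
  · intro x hx
    rw [hu x hx, inner_zero_left]

/-- from fields to the statement -/
theorem of_AB {d : ℕ} {μ : Measure ℝ} [IsProbabilityMeasure μ] {K : ℝ}
    (hbd : ∀ᵐ ω ∂(iid d μ), ∀ x, |ω x| ≤ K) {A : Pot d → L2 d → L2 d}
    {v : Pot d → L2 d →L[ℂ] L2 d} (hv : ∀ᵐ ω ∂(iid d μ), ∀ u, v ω u = A ω u)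
    {q : Polynomial ℂ} {f : ℝ → ℂ} (hf : ∀ E : ℝ, f E = q.eval (E : ℂ)) {g : ℝ → ℝ} {lam c : ℝ}
    (h : AB K μ v q g lam c) : AsymptoticallyAtMost μ A f g lam c := by
  obtain ⟨δ, hδ, L0, h1⟩ := h
  refine ⟨δ, hδ, L0, fun L hL => ?_⟩
  obtain ⟨R, h2, h3, h4⟩ := h1 L hL
  refine ⟨R, h2, h3, ?_⟩
  filter_upwards [hbd, hv] with ω e1 e2 ι _ u E hE a ha
  have h5 := h4 ω ι u E (ef_of e1 hE) a ha.1 ha.2
  have hc : (0 : ℝ) < (Box d L).card := card_pos (d := d) L
  rw [div_le_iff₀ hc, mul_comm]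
  refine le_trans (le_of_eq ?_) h5
  unfold pairSum ps
  refine Finset.sum_congr rfl fun n _ => Finset.sum_congr rfl fun m _ => ?_
  rw [el_eq (hE.out m) ha.1, el_eq (hE.out m) ha.1, e2, hf]

/-- Let `d ≥ 1` and let `μ` be a law with bounded support which is not a point mass. For every
potential the unitary group exists and is unique, and `p`, `m`, `κ` exist. Every observable `A` with
`‖A‖ ≤ M` has a microcanonical average `F`. For every `ε > 0` there is a continuous function `f`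
with `∫ |F - f|² dκ ≤ ε` such that for all windows `g`, in all large boxes, the normalized sum of
`g(E_n) |⟨u_m, a A u_n⟩ - f(E_n) ⟨u_m, a u_n⟩|²` over the pairs with `|E_m - E_n| ≤ δ` is at most
`4 M² s(g) + ε` in mean; and for all `lam ≠ 0` the normalized sum of `g(E_n) |⟨u_m, a A u_n⟩|²` over
the pairs with `|E_m - E_n - lam| ≤ δ` is at most `M² s(g) + ε` in mean. -/
theorem result (d : ℕ) (hd : 1 ≤ d) (μ : Measure ℝ) [IsProbabilityMeasure μ]
    (hb : ∃ K : ℝ, ∀ᵐ r ∂μ, |r| ≤ K) (hμ : ∀ r : ℝ, μ {r} ≠ 1) :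
    (∀ ω : Pot d, ∃! U : ℝ → L2 d → L2 d, IsPropagator ω U) ∧
    ∀ U : Pot d → ℝ → L2 d → L2 d, (∀ ω, IsPropagator ω (U ω)) →
      ∃ (p : Pot d → L2 d) (m : Pot d → Measure ℝ) (κ : Measure ℝ), IsDecomposition μ U p m κ ∧
        ∀ (M : ℝ) (A : Pot d → L2 d → L2 d), IsObservable μ M A →
          ∃ F : ℝ → ℂ, IsMicrocanonical μ U p κ A F ∧
            (∀ ε : ℝ, 0 < ε → ∃ f : ℝ → ℂ, Continuous f ∧
              Integrable (fun E => ‖F E - f E‖ ^ 2) κ ∧ ∫ E, ‖F E - f E‖ ^ 2 ∂κ ≤ ε ∧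
              ∀ g, IsWindow g → AsymptoticallyAtMost μ A f g 0
                (4 * M ^ 2 * singularWeight μ m g + ε)) ∧
            ∀ lam : ℝ, lam ≠ 0 → ∀ ε : ℝ, 0 < ε → ∀ g, IsWindow g →
              AsymptoticallyAtMost μ A (fun _ => 0) g lam (M ^ 2 * singularWeight μ m g + ε) := by
  obtain ⟨K, hK⟩ := hb
  refine ⟨fun ω => ?_, fun U hU => ?_⟩
  · obtain ⟨W, hW⟩ := NB.ALL.a_EX d (-1) (fun x => 2 * d + ω x)
    refine ⟨fun t u => W.U t u, prop_of_grp hW, fun U hU => ?_⟩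
    funext t u
    exact prop_eq hW hU t u
  choose ev hev using fun ω : NB.Site d → ℝ => NB.ALL.a_EX d (-1) (fun x => 2 * d + ω x)
  have hUe : ∀ ω t u, U ω t u = (ev ω).U t u := fun ω t u => prop_eq (hev ω) (hU ω) t u
  have hbd := bd_ae (d := d) hK
  have hbd' : ∀ᵐ ω ∂(iid d μ), ∀ x, |ω x| ≤ K := hbd
  have hUx : ∀ ω : NB.Site d → ℝ, (∀ x, |ω x| ≤ K) → ∀ t u,
      U ω t u = Ex (Pool.Agent.TH980.IM.HV K ω) t u := by
    intro ω h1 t u
    rw [hUe, grp_Ex h1 (hev ω)]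
  have hac_iff : ∀ ω : (Fin d → ℤ) → ℝ, (∀ x, |ω x| ≤ K) → ∀ u : L2 d,
      IsAC (U ω) u ↔ Pool.Agent.TH980.IM.spm (Pool.Agent.TH980.IM.HV_sa K ω) u ≪ volume := by
    intro ω h1 u
    constructor
    · rintro ⟨m, ⟨hm1, hm2⟩, hm3⟩
      have hmm : m = Pool.Agent.TH980.IM.spm (Pool.Agent.TH980.IM.HV_sa K ω) u :=
        spm_unique _ u m fun t => by rw [← hUx ω h1, hm2 t]
      rw [← hmm]
      exact hm3
    · intro h
      refine ⟨_, ⟨inferInstance, fun t => ?_⟩, h⟩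
      rw [hUx ω h1, Ex_spm]
  obtain ⟨κ, hκ1, hκ2, hκ⟩ := dos (d := d) K μ
  obtain ⟨P, hP, sP, eP⟩ := exists_Pf (d := d) K μ
  have hp : ∀ᵐ ω ∂(NB.PP d μ), Pool.Agent.TH980.IM.spm (Pool.Agent.TH980.IM.HV_sa K ω)
      (PA K ω (NB.dl 0)) ≪ volume := Eventually.of_forall fun ω => acP_ac _ _
  have hpm : MemLp (fun ω => PA K ω (NB.dl 0 : L2 d)) 2 (NB.PP d μ) := by
    refine MemLp.of_bound (PA_aesm K μ aestronglyMeasurable_const) 1
      (Eventually.of_forall fun ω => ?_)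
    refine (acP_norm _ _).trans ?_
    rw [NB.STAT.norm_dl]
  set m : Pot d → Measure ℝ := fun ω => Pool.Agent.TH980.IM.spm
    (Pool.Agent.TH980.IM.HV_sa K ω) (NB.dl 0 - PA K ω (NB.dl 0 : L2 d)) with hm
  have hsw : ∀ g : ℝ → ℝ, ∫ ω, sw K P g ω ∂(NB.PP d μ) = singularWeight μ m g := by
    intro g
    refine integral_congr_ae ?_
    filter_upwards [eP] with ω hω
    show ∫ E, g E ∂(Pool.Agent.TH980.IM.spm (Pool.Agent.TH980.IM.HV_sa K ω)
      (NB.dl 0 - P ω (NB.dl 0))) = _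
    rw [hω]
  refine ⟨fun ω => PA K ω (NB.dl 0), m, κ, ⟨?_, ?_, ?_, hκ1, hκ2, fun t => ?_⟩,
    fun M A hA => ?_⟩
  · exact PA_aesm K μ aestronglyMeasurable_const
  · filter_upwards [hbd'] with ω h1
    refine ⟨(hac_iff ω h1 _).2 (acP_ac _ _), fun w hw => ?_⟩
    exact acP_orth _ ((hac_iff ω h1 w).1 hw) _
  · filter_upwards [hbd'] with ω h1
    refine ⟨inferInstance, fun t => ?_⟩
    rw [hUx ω h1]
    exact Ex_spm (Pool.Agent.TH980.IM.HV_sa K ω) t (NB.dl 0 - PA K ω (NB.dl 0 : L2 d))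
  · rw [← hκ (fun E => Complex.exp (-(Complex.I * t * E))) (by fun_prop)
      ⟨1, fun E => by rw [Complex.norm_exp]; simp⟩]
    refine integral_congr_ae ?_
    filter_upwards [hbd'] with ω hω
    rw [hUx ω hω, Ex_spm (Pool.Agent.TH980.IM.HV_sa K ω)]
  -- one observable
  obtain ⟨v, hvA, hO, hO'⟩ := obs_of hA
  obtain ⟨B, F, C, _, hB, hB', cB, lB, hf1, ⟨Rf, hf2⟩, hf3, hwm⟩ :=
    main_wm hd hK hμ hev hO hO'
  have hmem := fun p : Polynomial ℝ => s1_mem (d := d) K (ν := μ) p hP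
  have hac := fun p : Polynomial ℝ => s1_ac (d := d) (K := K) (ν := μ) p eP
  have h2 : ∀ᵐ ω ∂(NB.PP d μ), (∀ x, B ω (Pool.Agent.TH980.IM.HV K ω x) =
      Pool.Agent.TH980.IM.HV K ω (B ω x)) ∧
      (∀ ψ, ∀ᵐ E : ℝ, Ngl (Pool.Agent.TH980.IM.HV K ω) E (B ω ψ - F E • ψ)) := by
    filter_upwards [hf3] with ω h
    exact ⟨h.2.1, h.2.2.1⟩
  refine ⟨F, ⟨hf1, ⟨Rf, hf2⟩, fun t => ?_⟩, fun ε hε => ?_, fun lam hlam ε hε g hg => ?_⟩
  · have h1 := mic_gen hK hev hκ hO hO' hB hB' hf1 ⟨Rf, hf2⟩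
      (by
        filter_upwards [hf3] with ω h
        exact ⟨h.1, h.2.2.2⟩) (hwm _ hpm hp).1 t
    rw [← h1]
    refine integral_congr_ae ?_
    filter_upwards [hvA] with ω hω
    show ⟪U ω t (PA K ω (NB.dl 0)), A ω (PA K ω (NB.dl 0))⟫_ℂ = _
    rw [hUe, ← hω]
  · obtain ⟨q, hq1, hq2⟩ := core0 hK hev hO hB hP cB lB hκ hf1 hf2 h2 eP
      (fun p => (hwm _ (hmem p) (hac p)).2.1) hε
    have hqc : Continuous fun E : ℝ => q.eval (E : ℂ) :=
      q.continuous.comp Complex.continuous_ofReal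
    -- the density of states lives on a compact interval
    have hsup : ∀ᵐ E ∂κ, |E| ≤ Rh d K := kappa_supp hκ
    have hint : Integrable (fun E => ‖F E - q.eval (E : ℂ)‖ ^ 2) κ := by
      refine Integrable.of_bound (C := (Rf + pb (Rh d K) q) ^ 2)
        (((hf1.sub hqc.measurable).norm).pow_const 2).aestronglyMeasurable ?_
      filter_upwards [hsup] with E hE
      rw [norm_pow, norm_norm]
      exact pow_le_pow_left₀ (norm_nonneg _) ((norm_sub_le _ _).trans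
        (add_le_add (hf2 E) (pb_sup (Rh d K) (Rh_nonneg d K) q E hE))) 2
    refine ⟨fun E => q.eval (E : ℂ), hqc, hint, ?_, fun g hg => ?_⟩
    · have h3 : ENNReal.ofReal (∫ E, ‖F E - q.eval (E : ℂ)‖ ^ 2 ∂κ) ≤ ENNReal.ofReal ε := by
        rw [ofReal_integral_eq_lintegral_ofReal hint (ae_of_all _ fun E => by positivity)]
        refine le_trans (le_of_eq (lintegral_congr_ae ?_)) hq1
        filter_upwards [hsup] with E hE
        rw [if_pos hE, ENNReal.ofReal_pow (norm_nonneg _), ofReal_norm]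
      exact (ENNReal.ofReal_le_ofReal_iff hε.le).1 h3
    · have h4 := hq2 g hg.1 (fun x => (hg.2 x).1) fun x => (hg.2 x).2
      rw [hsw g] at h4
      exact of_AB hbd' hvA (fun _ => rfl) h4
  · have h4 := core1 hK hev hO hP (fun p => (hwm _ (hmem p) (hac p)).2.2 lam hlam) hε hg.1
      (fun x => (hg.2 x).1) fun x => (hg.2 x).2
    rw [hsw g] at h4
    exact of_AB hbd' hvA (fun _ => by simp) h4

end Pool.Agent.Results.MP_d0f69c_mp.ErgodicEigenfunctions
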