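import Pool.Agent.H121.EH.Rnd

/-!
# Bounded potentials in high dimension: wave packets and eigenfunctions leave boxes of side `κ d`

`Δ_ω = -Δ + ω` on `ℓ²(ℤ^d)`, `|ω_x| ≤ 1` (for instance every `ω` in `{-1, 1}^{ℤ^d}`, the Bernoulli
Anderson model at coupling one). For `0 < ε < 1` there is `κ > 0`, independent of `d` and of `ω`, such that
for every box `Q` of side `l`, `1 ≤ l ≤ κ d`:

* (1) for all times `T ≥ 1` the particle which starts in `Q`, on the average over the starting point, spends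
  at most the fraction `ε` of the time interval `[0, T]` in `Q`;
* (2) for every orthonormal family of `ℓ²` eigenfunctions of `Δ_ω`, with masses `m_j` in `Q`,
  `∑_j m_j² ≤ ε |Q|`.

If moreover `ω` is i.i.d. with any law on `[-1, 1]` and `κ d ≥ 1`, then

* (3) for each site `a` and each `T ≥ 1`, outside an event of probability `ε`, the particle which starts at
  `a` spends at most the fraction `ε` of the time interval `[0, T]` at `ℓ¹` distances `≤ κ d` from `a`.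
-/

set_option autoImplicit false
set_option linter.unusedVariables false

open scoped BigOperators
open MeasureTheory

namespace Pool.Agent.Results.MP_d0f69c_mp.HighDimEscape

/-- `(Δ_ω u)(x) = -∑_{|n| = 1} (u(x + n) - u(x)) + ω_x u(x)` -/
noncomputable def opH {d : ℕ} (ω : (Fin d → ℤ) → ℝ) (u : (Fin d → ℤ) → ℂ) (x : Fin d → ℤ) : ℂ :=
  -∑ i, ((u (x + Pi.single i 1) - u x) + (u (x - Pi.single i 1) - u x)) + (ω x : ℂ) * u x

/-- `ψ` is the wave packet which starts at `a`: the solution of `i ψ' = Δ_ω ψ`, `ψ(0) = δ_a`, with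
`‖ψ(t)‖ = 1` in `ℓ²` for all times `t` -/
structure WavePacket {d : ℕ} (ω : (Fin d → ℤ) → ℝ) (a : Fin d → ℤ)
    (ψ : ℝ → (Fin d → ℤ) → ℂ) : Prop where
  start : ∀ x, ψ 0 x = if x = a then 1 else 0
  schroedinger : ∀ t x, HasDerivAt (fun s => ψ s x) (-Complex.I * opH ω (ψ t) x) t
  normalized : ∀ t, HasSum (fun x => ‖ψ t x‖ ^ 2) 1

/-- the box `c + {0, …, l - 1}^d` -/
noncomputable def box {d : ℕ} (c : Fin d → ℤ) (l : ℕ) : Finset (Fin d → ℤ) :=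
  Fintype.piFinset fun i => Finset.Ico (c i) (c i + l)

theorem wave_iff {d : ℕ} {ω : (Fin d → ℤ) → ℝ} {a : Fin d → ℤ} {ψ : ℝ → (Fin d → ℤ) → ℂ} :
    WavePacket ω a ψ ↔ Pool.Agent.H121.EH.EvP d ω a ψ :=
  ⟨fun h => ⟨h.start, h.schroedinger, h.normalized⟩, fun h => ⟨h.init, h.ode, h.norm⟩⟩

/-- the law of an i.i.d. potential -/
noncomputable def law (d : ℕ) (μ : Measure ℝ) : Measure ((Fin d → ℤ) → ℝ) :=
  Measure.infinitePi fun _ : Fin d → ℤ => μ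

/-- **Escape from boxes and balls of size `κ d`.** -/
theorem result (ε : ℝ) (hε : 0 < ε) :
    (∀ (d : ℕ) (ω : (Fin d → ℤ) → ℝ) (a : Fin d → ℤ), ∃! ψ, WavePacket ω a ψ) ∧
    ∃ κ : ℝ, 0 < κ ∧
      (∀ (d l : ℕ), 1 ≤ l → (l : ℝ) ≤ κ * d → ∀ ω : (Fin d → ℤ) → ℝ, (∀ x, |ω x| ≤ 1) →
        ∀ c : Fin d → ℤ,
        -- (1) wave packets
        (∀ T : ℝ, 1 ≤ T → ∀ ψ : (Fin d → ℤ) → ℝ → (Fin d → ℤ) → ℂ,
          (∀ a ∈ box c l, WavePacket ω a (ψ a)) →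
          (∑ a ∈ box c l, (1 / T) * ∫ t in (0 : ℝ)..T, ∑ y ∈ box c l, ‖ψ a t y‖ ^ 2) ≤
            ε * (box c l).card) ∧
        -- (2) eigenfunctions
        ∀ (n : ℕ) (u : Fin n → lp (fun _ : Fin d → ℤ => ℂ) 2) (E : Fin n → ℝ), Orthonormal ℂ u →
          (∀ j x, opH ω (fun y => u j y) x = (E j : ℂ) * u j x) →
          ∑ j, (∑ x ∈ box c l, ‖u j x‖ ^ 2) ^ 2 ≤ ε * (box c l).card) ∧
      -- (3) random potentials, a single site
      ∀ d : ℕ, 1 ≤ κ * d → ∀ (μ : Measure ℝ) [IsProbabilityMeasure μ], μ (Set.Icc (-1) 1)ᶜ = 0 →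
        ∀ T : ℝ, 1 ≤ T → ∀ a : Fin d → ℤ, ∃ G : Set ((Fin d → ℤ) → ℝ), MeasurableSet G ∧
          1 - ε ≤ (law d μ).real G ∧
          ∀ ω ∈ G, ∀ ψ : ℝ → (Fin d → ℤ) → ℂ, WavePacket ω a ψ →
            ∀ F : Finset (Fin d → ℤ), (∀ y ∈ F, ∑ i, |(y i : ℝ)| ≤ κ * d) →
              (1 / T) * ∫ t in (0 : ℝ)..T, ∑ y ∈ F, ‖ψ t (a + y)‖ ^ 2 ≤ ε := by
  obtain ⟨κ₁, h1, hA⟩ := Pool.Agent.H121.EH.detP hε
  obtain ⟨κ₂, h2, hB⟩ := Pool.Agent.H121.EH.detEP hε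
  obtain ⟨κ₃, h3, hC⟩ := Pool.Agent.H121.EH.rndP hε
  have hm1 : ∀ d : ℕ, min (min κ₁ κ₂) κ₃ * (d : ℝ) ≤ κ₁ * d := fun d =>
    mul_le_mul_of_nonneg_right ((min_le_left _ _).trans (min_le_left _ _)) (Nat.cast_nonneg d)
  have hm2 : ∀ d : ℕ, min (min κ₁ κ₂) κ₃ * (d : ℝ) ≤ κ₂ * d := fun d =>
    mul_le_mul_of_nonneg_right ((min_le_left _ _).trans (min_le_right _ _)) (Nat.cast_nonneg d)
  have hm3 : ∀ d : ℕ, min (min κ₁ κ₂) κ₃ * (d : ℝ) ≤ κ₃ * d := fun d =>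
    mul_le_mul_of_nonneg_right (min_le_right _ _) (Nat.cast_nonneg d)
  refine ⟨fun d ω a => ?_, min (min κ₁ κ₂) κ₃, lt_min (lt_min h1 h2) h3,
    fun d l hl hld ω hω c => ⟨?_, ?_⟩, fun d hd μ _ hμ T hT a => ?_⟩
  · obtain ⟨ψ, hψ⟩ := Pool.Agent.H121.EH.evP_exists ω a
    exact ⟨ψ, wave_iff.2 hψ, fun φ hφ => Pool.Agent.H121.EH.evP_unique (wave_iff.1 hφ) hψ⟩
  · intro T hT ψ hψ
    exact hA d l hl (hld.trans (hm1 d)) ω hω c T hT ψ fun a ha => wave_iff.1 (hψ a ha)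
  · intro n u E hu he
    exact hB d l hl (hld.trans (hm2 d)) ω hω c n u E hu he
  · obtain ⟨G, hG, hP, hG3⟩ := hC d (hd.trans (hm3 d)) μ hμ T hT a
    exact ⟨G, hG, hP, fun ω hω ψ hψ F hF =>
      hG3 ω hω ψ (wave_iff.1 hψ) F fun y hy => (hF y hy).trans (hm3 d)⟩

end Pool.Agent.Results.MP_d0f69c_mp.HighDimEscape
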