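import Pool.Agent.H988.WM.Cor

/-!
# The dynamics of the Anderson model has no frequency on the absolutely continuous subspace

`Δ_ω = -Δ + ω` on `ℤ^d`, `ω_j` iid with any law of bounded support which is not a point mass, for
instance `P(ω_j = ±1) = 1/2`. An observable is a family `A_ω` of bounded operators which depend
measurably on `ω` and are almost surely covariant under translations; no locality and no
self-adjointness is assumed. `A_ω(s) = e^{isΔ} A_ω e^{-isΔ}`. Let `λ ≠ 0`.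

* For all square integrable random states `ψ` of the absolutely continuous subspace of `Δ_ω` the
  averages `T⁻¹ ∫_0^T e^{-iλs} A(s) ψ ds` tend to zero in mean square.
* In particular there are no eigenoperators: if `e^{itΔ} W_ω e^{-itΔ} = e^{iλt} W_ω` almost surely,
  for all `t`, that is, if `W_ω Δ_ω = (Δ_ω - λ) W_ω`, then `W_ω` vanishes on the
  absolutely continuous subspace, almost surely.

For `λ = 0` the operators `f(Δ_ω)` are eigenoperators, and by the theorem on the constants of motion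
there are no others on the absolutely continuous subspace. So the evolution of the observables on
this subspace has no other eigenvalues and eigenoperators than these trivial ones. (The theorem
says nothing if the absolutely continuous subspace is zero.)
-/

set_option autoImplicit false

open MeasureTheory Filter Topology
open scoped BigOperators ENNReal NNReal InnerProductSpace ComplexConjugate

namespace Pool.Agent.Results.MP_d0f69c_mp.NoEigenoperators

/-- `ℓ²(ℤ^d)` -/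
abbrev L2 (d : ℕ) : Type := lp (fun _ : Fin d → ℤ => ℂ) 2

/-- potentials on `ℤ^d` -/
abbrev Pot (d : ℕ) : Type := (Fin d → ℤ) → ℝ

/-- the operator of the problem, `(Δ_ω u)(j) = -∑_{|n|=1} (u(j+n) - u(j)) + ω_j u(j)` (the unit
vectors `n` are `± e_i`) -/
noncomputable def H {d : ℕ} (ω : Pot d) (u : (Fin d → ℤ) → ℂ) (j : Fin d → ℤ) : ℂ :=
  -(∑ i : Fin d, ((u (j + Pi.single i 1) - u j) + (u (j - Pi.single i 1) - u j))) + (ω j : ℂ) * u j

/-- `U t = e^{-itΔ_ω}`: norm preserving maps of `ℓ²(ℤ^d)` with `U 0 = 1` and `i ∂_t (U_t u) = Δ_ω U_t u`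
at every site -/
structure IsPropagator {d : ℕ} (ω : Pot d) (U : ℝ → L2 d → L2 d) : Prop where
  zero : ∀ u, U 0 u = u
  norm : ∀ t u, ‖U t u‖ = ‖u‖
  schrodinger : ∀ u t j, HasDerivAt (fun s => (U s u) j)
    (-Complex.I * H ω (fun k => (U t u) k) j) t

/-- linear operators -/
def Linear {d : ℕ} (A : Pot d → L2 d → L2 d) : Prop :=
  ∀ (ω : Pot d) (c : ℂ) (u w : L2 d), A ω (c • u + w) = c • A ω u + A ω w

/-- bounded, uniformly in `ω` -/
def Bounded {d : ℕ} (A : Pot d → L2 d → L2 d) : Prop :=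
  ∃ M : ℝ, ∀ (ω : Pot d) (u : L2 d), ‖A ω u‖ ≤ M * ‖u‖

/-- `A_ω u` depends measurably on `ω` -/
def MeasurableField {d : ℕ} (A : Pot d → L2 d → L2 d) : Prop :=
  ∀ (u : L2 d) (j : Fin d → ℤ), Measurable fun ω => (A ω u) j

/-- covariant under all translations at `ω`: if `w = u(· + z)` then
`A_{ω(· + z)} w = (A_ω u)(· + z)` -/
def CovariantAt {d : ℕ} (A : Pot d → L2 d → L2 d) (ω : Pot d) : Prop :=
  ∀ (z : Fin d → ℤ) (u w : L2 d), (∀ j, w j = u (j + z)) →
    ∀ j, (A (fun k => ω (k + z)) w) j = (A ω u) (j + z)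

/-- the law of iid variables with law `μ` on `ℤ^d` -/
noncomputable def iid (d : ℕ) (μ : Measure ℝ) : Measure (Pot d) :=
  Measure.infinitePi fun _ => μ

/-- `A_ω` is an observable: linear operators, bounded uniformly in `ω`, measurable in `ω`, and
almost surely covariant under translations -/
structure IsObservable {d : ℕ} (μ : Measure ℝ) (A : Pot d → L2 d → L2 d) : Prop where
  linear : Linear A
  bounded : Bounded A
  measurable : MeasurableField A
  covariant : ∀ᵐ ω ∂(iid d μ), CovariantAt A ω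

/-- `m` is the spectral measure of `u`: the finite measure with
`⟨u, e^{-itΔ_ω} u⟩ = ∫ e^{-itE} dm(E)` -/
def IsSpectral {d : ℕ} (U : ℝ → L2 d → L2 d) (u : L2 d) (m : Measure ℝ) : Prop :=
  IsFiniteMeasure m ∧
    ∀ t : ℝ, ⟪u, U t u⟫_ℂ = ∫ E : ℝ, Complex.exp (-(Complex.I * t * E)) ∂m

/-- `u` is in the absolutely continuous subspace -/
def IsAC {d : ℕ} (U : ℝ → L2 d → L2 d) (u : L2 d) : Prop :=
  ∃ m : Measure ℝ, IsSpectral U u m ∧ m ≪ volume

/-- the observable at time `s`, `e^{isΔ} A e^{-isΔ}`, applied to `u` -/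
def evolved {d : ℕ} (U : ℝ → L2 d → L2 d) (A : L2 d → L2 d) (s : ℝ) (u : L2 d) : L2 d :=
  U (-s) (A (U s u))

/-- the component of frequency `lam`: `T⁻¹ ∫_0^T e^{-i lam s} A(s) u ds` -/
noncomputable def component {d : ℕ} (U : ℝ → L2 d → L2 d) (A : L2 d → L2 d) (lam T : ℝ)
    (u : L2 d) : L2 d :=
  ((T : ℂ)⁻¹) • ∫ s in (0 : ℝ)..T, Complex.exp (-(Complex.I * lam * s)) • evolved U A s u

/-- `ψ` is a square integrable random state in the absolutely continuous subspace -/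
structure IsRandomState {d : ℕ} (μ : Measure ℝ) (U : Pot d → ℝ → L2 d → L2 d)
    (ψ : Pot d → L2 d) : Prop where
  memLp : MemLp ψ 2 (iid d μ)
  ac : ∀ᵐ ω ∂(iid d μ), IsAC (U ω) (ψ ω)

/-- for all square integrable random states `ψ` of the absolutely continuous subspace the component
of frequency `lam` of `A(s) ψ` vanishes in mean square for `T → ∞` -/
def HasNoFrequency {d : ℕ} (μ : Measure ℝ) (U : Pot d → ℝ → L2 d → L2 d)
    (A : Pot d → L2 d → L2 d) (lam : ℝ) : Prop :=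
  ∀ ψ, IsRandomState μ U ψ →
    Tendsto (fun T : ℝ => ∫⁻ ω, ‖component (U ω) (A ω) lam T (ψ ω)‖ₑ ^ 2 ∂(iid d μ)) atTop (𝓝 0)

/-- `W` is an observable with `W e^{-itΔ} = e^{i lam t} e^{-itΔ} W` for all `t`, almost surely -/
structure IsEigenoperator {d : ℕ} (μ : Measure ℝ) (U : Pot d → ℝ → L2 d → L2 d)
    (W : Pot d → L2 d → L2 d) (lam : ℝ) : Prop where
  observable : IsObservable μ W
  eigen : ∀ᵐ ω ∂(iid d μ), ∀ (t : ℝ) (u : L2 d),
    W ω (U ω t u) = Complex.exp (Complex.I * lam * t) • U ω t (W ω u)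

open Pool.Agent.H5R2 Pool.Agent.Y662.ERG Pool.Agent.H988.WM

theorem sol_of_prop {d : ℕ} {ω : (Fin d → ℤ) → ℝ} {U : ℝ → L2 d → L2 d}
    (hU : IsPropagator ω U) (u : L2 d) :
    NB.IsSol (-1) (fun x => 2 * d + ω x) (fun t => U t u) (fun _ => 0) := by
  refine ⟨fun T => ⟨‖u‖, fun t _ => (hU.norm t u).le⟩, fun t x => ?_⟩
  have h := hU.schrodinger u t x
  have e := NB.FIN.hop_eq ω (fun k => (U t u) k) x
  have e2 : -Complex.I * (NB.hopf (-1) (fun y => (U t u) y) x +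
      (((fun x => 2 * d + ω x) x : ℝ) : ℂ) * (U t u) x) + ((0 : L2 d) : (Fin d → ℤ) → ℂ) x =
      -Complex.I * H ω (fun k => (U t u) k) x := by
    have e3 : H ω (fun k => (U t u) k) x = -(∑ i : Fin d,
        (((U t u) (x + Pi.single i 1) - (U t u) x) + ((U t u) (x - Pi.single i 1) - (U t u) x))) +
        (ω x : ℂ) * (U t u) x := rfl
    rw [e3, ← e]
    simp
  rw [e2]
  exact h

theorem prop_of_grp {d : ℕ} {ω : (Fin d → ℤ) → ℝ} {W : NB.UG (NB.L2 (NB.Site d))}
    (hW : NB.IsGrp (-1) (fun x => 2 * d + ω x) W) : IsPropagator ω (fun t u => W.U t u) := by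
  refine ⟨W.zero', W.norm', fun u t x => ?_⟩
  have h := (hW u).2 t x
  have e := NB.FIN.hop_eq ω (fun k => (W.U t u) k) x
  have e3 : H ω (fun k => (W.U t u) k) x = -(∑ i : Fin d,
        (((W.U t u) (x + Pi.single i 1) - (W.U t u) x) +
          ((W.U t u) (x - Pi.single i 1) - (W.U t u) x))) + (ω x : ℂ) * (W.U t u) x := rfl
  rw [e3, ← e]
  simpa using h

theorem prop_eq {d : ℕ} {ω : (Fin d → ℤ) → ℝ} {W : NB.UG (NB.L2 (NB.Site d))}
    (hW : NB.IsGrp (-1) (fun x => 2 * d + ω x) W) {U : ℝ → L2 d → L2 d}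
    (hU : IsPropagator ω U) (t : ℝ) (u : L2 d) : U t u = W.U t u := by
  have h := NB.ALL.a_UN d (-1) _ W hW (fun t => U t u) (fun _ => 0)
    continuous_const (sol_of_prop hU u) t
  simpa [hU.zero u] using h

/-- the bounded operator -/
noncomputable def toOp {d : ℕ} (A : L2 d → L2 d)
    (hl : ∀ (c : ℂ) (u w : L2 d), A (c • u + w) = c • A u + A w)
    (hb : ∃ M : ℝ, ∀ u, ‖A u‖ ≤ M * ‖u‖) : L2 d →L[ℂ] L2 d :=
  have h0 : A 0 = 0 := by
    have h := hl (-1) 0 0
    simpa using h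
  LinearMap.mkContinuousOfExistsBound
    { toFun := A
      map_add' := fun u w => by
        have h := hl 1 u w
        rwa [one_smul, one_smul] at h
      map_smul' := fun c u => by
        have h := hl c u 0
        rwa [add_zero, h0, add_zero] at h } hb

theorem obs_of {d : ℕ} {μ : Measure ℝ} [IsProbabilityMeasure μ] {A : Pot d → L2 d → L2 d}
    (hA : IsObservable μ A) :
    ∃ (v : Pot d → L2 d →L[ℂ] L2 d) (M : ℝ), (∀ᵐ ω ∂(iid d μ), ∀ u, v ω u = A ω u) ∧
      Pool.Agent.R988.NQ.Fld M v ∧ Pool.Agent.R988.NQ.Fld M (Pool.Agent.R988.NQ.adjF v) := by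
  obtain ⟨M, hM⟩ := hA.bounded
  have hM0 : 0 ≤ M := by
    have h1 := hM 0 (NB.dl 0)
    rw [NB.STAT.norm_dl, mul_one] at h1
    exact (norm_nonneg _).trans h1
  obtain ⟨W, hWA⟩ : ∃ W : Pot d → L2 d →L[ℂ] L2 d, ∀ ω u, W ω u = A ω u :=
    ⟨fun ω => toOp (A ω) (hA.linear ω) ⟨M, hM ω⟩, fun ω u => rfl⟩
  have hcv : ∀ᵐ V ∂(NB.PP d μ), ∀ (z : NB.Site d)
      (S : NB.L2 (NB.Site d) →L[ℂ] NB.L2 (NB.Site d)), NB.IsShift z S → ∀ ψ,
        W (fun y => V (y + z)) (S ψ) = S (W V ψ) := by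
    have h1 : ∀ᵐ ω ∂(NB.PP d μ), CovariantAt A ω := hA.covariant
    filter_upwards [h1] with ω hω z S hS ψ
    ext j
    rw [hWA, hWA, hω z ψ (S ψ) (fun k => hS ψ k) j, hS]
  have hmW : ∀ (u : L2 d) (j : Fin d → ℤ), Measurable fun ω => (W ω u) j := by
    intro u j
    simp only [hWA]
    exact hA.measurable u j
  obtain ⟨W', hW1, hW2, hW3, hW4⟩ := Pool.Agent.R988.NQ.fix_cov hmW hcv
  have hb' : ∀ V ψ, ‖W' V ψ‖ ≤ M * ‖ψ‖ := by
    intro V ψ
    rcases hW1 V with h | h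
    · rw [h, hWA]
      exact hM V ψ
    · rw [h, zero_apply, norm_zero]
      positivity
  refine ⟨W', M, ?_, Pool.Agent.R988.NQ.flds hb' hW2 hW3⟩
  have h2 : ∀ᵐ ω ∂(NB.PP d μ), ∀ u, W' ω u = A ω u := by
    filter_upwards [hW4] with ω hω u
    rw [hω, hWA]
  exact h2

/-- Let `d ≥ 1` and let `μ` be a law with bounded support which is not a point mass. For every
potential the unitary group exists and is unique. Observables have no component of a frequency
`lam ≠ 0` on the absolutely continuous subspace; the eigenoperators of a frequency `lam ≠ 0` vanish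
almost surely on the absolutely continuous subspace. -/
theorem result (d : ℕ) (hd : 1 ≤ d) (μ : Measure ℝ) [IsProbabilityMeasure μ]
    (hb : ∃ K : ℝ, ∀ᵐ r ∂μ, |r| ≤ K) (hμ : ∀ r : ℝ, μ {r} ≠ 1) :
    (∀ ω : Pot d, ∃! U : ℝ → L2 d → L2 d, IsPropagator ω U) ∧
    ∀ U : Pot d → ℝ → L2 d → L2 d, (∀ ω, IsPropagator ω (U ω)) → ∀ lam : ℝ, lam ≠ 0 →
      (∀ A : Pot d → L2 d → L2 d, IsObservable μ A → HasNoFrequency μ U A lam) ∧
      ∀ W : Pot d → L2 d → L2 d, IsEigenoperator μ U W lam →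
        ∀ᵐ ω ∂(iid d μ), ∀ u, IsAC (U ω) u → W ω u = 0 := by
  obtain ⟨K, hK⟩ := hb
  refine ⟨fun ω => ?_, fun U hU lam hlam => ?_⟩
  · obtain ⟨W, hW⟩ := NB.ALL.a_EX d (-1) (fun x => 2 * d + ω x)
    refine ⟨fun t u => W.U t u, prop_of_grp hW, fun U hU => ?_⟩
    funext t u
    exact prop_eq hW hU t u
  choose ev hev using fun ω : NB.Site d → ℝ => NB.ALL.a_EX d (-1) (fun x => 2 * d + ω x)
  have hUe : ∀ ω t u, U ω t u = (ev ω).U t u := fun ω t u => prop_eq (hev ω) (hU ω) t u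
  have hbd := bd_ae (d := d) hK
  have hbd' : ∀ᵐ ω ∂(iid d μ), ∀ x, |ω x| ≤ K := hbd
  have hUx : ∀ ω : NB.Site d → ℝ, (∀ x, |ω x| ≤ K) → ∀ t u,
      U ω t u = Ex (Pool.Agent.TH980.IM.HV K ω) t u := by
    intro ω h1 t u
    rw [hUe, grp_Ex h1 (hev ω)]
  have hac_iff : ∀ ω : (Fin d → ℤ) → ℝ, (∀ x, |ω x| ≤ K) → ∀ u : L2 d,
      IsAC (U ω) u ↔ Pool.Agent.TH980.IM.spm (Pool.Agent.TH980.IM.HV_sa K ω) u ≪ volume := by
    intro ω h1 u
    constructor
    · rintro ⟨m, ⟨hm1, hm2⟩, hm3⟩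
      have hmm : m = Pool.Agent.TH980.IM.spm (Pool.Agent.TH980.IM.HV_sa K ω) u :=
        spm_unique _ u m fun t => by rw [← hUx ω h1, hm2 t]
      rw [← hmm]
      exact hm3
    · intro h
      refine ⟨_, ⟨inferInstance, fun t => ?_⟩, h⟩
      rw [hUx ω h1, Ex_spm]
  refine ⟨fun A hA ψ hψ => ?_, fun Q hQ => ?_⟩
  · obtain ⟨v, M, hvA, hO, hO'⟩ := obs_of hA
    obtain ⟨B, f, C, _, hB, hB', cB, _, hf1, hf2, hf3, hwm⟩ := main_wm hd hK hμ hev hO hO'
    have hst : ∀ᵐ ω ∂(NB.PP d μ),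
        Pool.Agent.TH980.IM.spm (Pool.Agent.TH980.IM.HV_sa K ω) (ψ ω) ≪ volume := by
      have h1 : ∀ᵐ ω ∂(NB.PP d μ), IsAC (U ω) (ψ ω) := hψ.ac
      filter_upwards [h1, hbd] with ω e1 e2
      exact (hac_iff ω e2 _).1 e1
    have h1 := (hwm ψ hψ.memLp hst).2.2 lam hlam
    refine Tendsto.congr (fun T => ?_) h1
    refine lintegral_congr_ae ?_
    filter_upwards [hvA] with ω hω
    congr 2
    unfold avR component evolved
    simp only [hUe, ← hω]
    rfl
  · obtain ⟨v, M, hvA, hO, hO'⟩ := obs_of hQ.observable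
    have hc : ∀ᵐ ω ∂(NB.PP d μ), ∀ t x, v ω ((ev ω).U t x) =
        ph lam (-t) • (ev ω).U t (v ω x) := by
      have h1 : ∀ᵐ ω ∂(NB.PP d μ), ∀ (t : ℝ) (u : L2 d),
        Q ω (U ω t u) = Complex.exp (Complex.I * lam * t) • U ω t (Q ω u) := hQ.eigen
      have hvA' : ∀ᵐ ω ∂(NB.PP d μ), ∀ u, v ω u = Q ω u := hvA
      filter_upwards [h1, hvA'] with ω e1 e2 t x
      rw [e2, e2, ← hUe, e1, hUe]
      congr 1
      unfold ph
      congr 1
      push_cast
      ring
    have h2 := no_eig hd hK hμ hev hO hO' hlam hc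
    have h3 : ∀ᵐ ω ∂(iid d μ), ∀ ψ,
      Pool.Agent.TH980.IM.spm (Pool.Agent.TH980.IM.HV_sa K ω) ψ ≪ volume → v ω ψ = 0 := h2
    filter_upwards [h3, hvA, hbd'] with ω e1 e2 e3 u hu
    rw [← e2]
    exact e1 u ((hac_iff ω e3 u).1 hu)

end Pool.Agent.Results.MP_d0f69c_mp.NoEigenoperators
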