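import Pool.Agent.H988.DJ.ObE
import Pool.Agent.H988.DJ.Free

/-!
# The Anderson dynamics and translation invariant dynamics: no intertwiners, no wave operators

`Δ_ω = -Δ + ω` on `ℤ^d`, `ω_j` iid with any law which is not a point mass, for instance
`P(ω_j = ±1) = 1/2` (the law need not have moments). `G t = e^{-itK}` is a translation invariant
dynamics (`K` selfadjoint, bounded or not, and commuting with the translations) with purely
absolutely continuous spectrum; for `d ≥ 1` the free dynamics, `K = -Δ`, is an example. If the law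
has a density then `K` is arbitrary. An observable is a family `A_ω` of bounded operators which
depend measurably on `ω` and are almost surely covariant under translations; no locality and no
self-adjointness is assumed.

* For every observable `A` and all square integrable random states `ψ` the averages
  `T⁻¹ ∫_0^T e^{isK} A e^{-isΔ_ω} ψ ds` and `T⁻¹ ∫_0^T e^{isΔ_ω} A e^{-isK} ψ ds` tend to zero in
  mean square.
* The matrix elements `𝔼 ⟨Z, e^{isK} A e^{-isΔ_ω} ψ⟩` and `𝔼 ⟨Z, e^{isΔ_ω} A e^{-isK} ψ⟩` tend to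
  zero in the mean square of the time: for no choice of a covariant identification `A` there are
  nonzero wave operators, in any weak sense of the limit.
* There are no covariant intertwiners: if `W_ω e^{-itΔ_ω} = e^{-itK} W_ω` almost surely for all `t`
  (that is, `W_ω Δ_ω = K W_ω`), or `W_ω e^{-itK} = e^{-itΔ_ω} W_ω`, then `W_ω = 0` almost surely.

So an absolutely continuous part of `Δ_ω`, if there is any, is not related to the plane waves by
any covariant operator.
-/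

set_option autoImplicit false

open MeasureTheory Filter Topology
open scoped BigOperators ENNReal NNReal InnerProductSpace ComplexConjugate

namespace Pool.Agent.Results.MP_d0f69c_mp.NoIntertwiners

/-- `ℓ²(ℤ^d)` -/
abbrev L2 (d : ℕ) : Type := lp (fun _ : Fin d → ℤ => ℂ) 2

/-- potentials on `ℤ^d` -/
abbrev Pot (d : ℕ) : Type := (Fin d → ℤ) → ℝ

/-- the operator of the problem, `(Δ_ω u)(j) = -∑_{|n|=1} (u(j+n) - u(j)) + ω_j u(j)` (the unit
vectors `n` are `± e_i`) -/
noncomputable def H {d : ℕ} (ω : Pot d) (u : (Fin d → ℤ) → ℂ) (j : Fin d → ℤ) : ℂ :=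
  -(∑ i : Fin d, ((u (j + Pi.single i 1) - u j) + (u (j - Pi.single i 1) - u j))) + (ω j : ℂ) * u j

/-- `U t = e^{-itΔ_ω}`: norm preserving maps of `ℓ²(ℤ^d)` with `U 0 = 1` and `i ∂_t (U_t u) = Δ_ω U_t u`
at every site -/
structure IsPropagator {d : ℕ} (ω : Pot d) (U : ℝ → L2 d → L2 d) : Prop where
  zero : ∀ u, U 0 u = u
  norm : ∀ t u, ‖U t u‖ = ‖u‖
  schrodinger : ∀ u t j, HasDerivAt (fun s => (U s u) j)
    (-Complex.I * H ω (fun k => (U t u) k) j) t

/-- linear operators -/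
def Linear {d : ℕ} (A : Pot d → L2 d → L2 d) : Prop :=
  ∀ (ω : Pot d) (c : ℂ) (u w : L2 d), A ω (c • u + w) = c • A ω u + A ω w

/-- bounded, uniformly in `ω` -/
def Bounded {d : ℕ} (A : Pot d → L2 d → L2 d) : Prop :=
  ∃ M : ℝ, ∀ (ω : Pot d) (u : L2 d), ‖A ω u‖ ≤ M * ‖u‖

/-- `A_ω u` depends measurably on `ω` -/
def MeasurableField {d : ℕ} (A : Pot d → L2 d → L2 d) : Prop :=
  ∀ (u : L2 d) (j : Fin d → ℤ), Measurable fun ω => (A ω u) j

/-- covariant under all translations at `ω`: if `w = u(· + z)` then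
`A_{ω(· + z)} w = (A_ω u)(· + z)` -/
def CovariantAt {d : ℕ} (A : Pot d → L2 d → L2 d) (ω : Pot d) : Prop :=
  ∀ (z : Fin d → ℤ) (u w : L2 d), (∀ j, w j = u (j + z)) →
    ∀ j, (A (fun k => ω (k + z)) w) j = (A ω u) (j + z)

/-- the law of iid variables with law `μ` on `ℤ^d` -/
noncomputable def iid (d : ℕ) (μ : Measure ℝ) : Measure (Pot d) :=
  Measure.infinitePi fun _ => μ

/-- `A_ω` is an observable: linear operators, bounded uniformly in `ω`, measurable in `ω`, and
almost surely covariant under translations -/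
structure IsObservable {d : ℕ} (μ : Measure ℝ) (A : Pot d → L2 d → L2 d) : Prop where
  linear : Linear A
  bounded : Bounded A
  measurable : MeasurableField A
  covariant : ∀ᵐ ω ∂(iid d μ), CovariantAt A ω

/-- `m` is the spectral measure of `u`: the finite measure with
`⟨u, e^{-itΔ_ω} u⟩ = ∫ e^{-itE} dm(E)` -/
def IsSpectral {d : ℕ} (U : ℝ → L2 d → L2 d) (u : L2 d) (m : Measure ℝ) : Prop :=
  IsFiniteMeasure m ∧
    ∀ t : ℝ, ⟪u, U t u⟫_ℂ = ∫ E : ℝ, Complex.exp (-(Complex.I * t * E)) ∂m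

/-- `u` is in the absolutely continuous subspace -/
def IsAC {d : ℕ} (U : ℝ → L2 d → L2 d) (u : L2 d) : Prop :=
  ∃ m : Measure ℝ, IsSpectral U u m ∧ m ≪ volume

/-- translation invariant dynamics, `G t = e^{-itK}` with `K` (bounded or unbounded) selfadjoint
and translation invariant: a strongly continuous one-parameter group of unitary operators which
commute with the translations -/
structure IsInvariantDynamics {d : ℕ} (G : ℝ → L2 d → L2 d) : Prop where
  linear : ∀ (t : ℝ) (c : ℂ) (u w : L2 d), G t (c • u + w) = c • G t u + G t w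
  norm : ∀ t u, ‖G t u‖ = ‖u‖
  zero : ∀ u, G 0 u = u
  add : ∀ s t u, G (s + t) u = G s (G t u)
  cont : ∀ u, Continuous fun t => G t u
  invariant : ∀ (z : Fin d → ℤ) (t : ℝ) (u w : L2 d), (∀ x, w x = u (x + z)) →
    ∀ x, (G t w) x = (G t u) (x + z)

/-- `T⁻¹ ∫_0^T X(-s) A Y(s) u ds` -/
noncomputable def average {d : ℕ} (X : ℝ → L2 d → L2 d) (A : L2 d → L2 d) (Y : ℝ → L2 d → L2 d)
    (T : ℝ) (u : L2 d) : L2 d :=
  ((T : ℂ)⁻¹) • ∫ s in (0 : ℝ)..T, X (-s) (A (Y s u))

/-- the matrix element `𝔼 ⟨Z, X(-s) A Y(s) ψ⟩` of random states `Z`, `ψ` -/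
noncomputable def element {d : ℕ} (μ : Measure ℝ) (X : Pot d → ℝ → L2 d → L2 d)
    (A : Pot d → L2 d → L2 d) (Y : Pot d → ℝ → L2 d → L2 d) (Z ψ : Pot d → L2 d) (s : ℝ) : ℂ :=
  ∫ ω, ⟪Z ω, X ω (-s) (A ω (Y ω s (ψ ω)))⟫_ℂ ∂(iid d μ)

open Pool.Agent.H5R2 Pool.Agent.H988.WM Pool.Agent.H988.DJ

theorem sol_of_prop {d : ℕ} {ω : (Fin d → ℤ) → ℝ} {U : ℝ → L2 d → L2 d}
    (hU : IsPropagator ω U) (u : L2 d) :
    NB.IsSol (-1) (fun x => 2 * d + ω x) (fun t => U t u) (fun _ => 0) := by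
  refine ⟨fun T => ⟨‖u‖, fun t _ => (hU.norm t u).le⟩, fun t x => ?_⟩
  have h := hU.schrodinger u t x
  have e := NB.FIN.hop_eq ω (fun k => (U t u) k) x
  have e2 : -Complex.I * (NB.hopf (-1) (fun y => (U t u) y) x +
      (((fun x => 2 * d + ω x) x : ℝ) : ℂ) * (U t u) x) + ((0 : L2 d) : (Fin d → ℤ) → ℂ) x =
      -Complex.I * H ω (fun k => (U t u) k) x := by
    have e3 : H ω (fun k => (U t u) k) x = -(∑ i : Fin d,
        (((U t u) (x + Pi.single i 1) - (U t u) x) + ((U t u) (x - Pi.single i 1) - (U t u) x))) +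
        (ω x : ℂ) * (U t u) x := rfl
    rw [e3, ← e]
    simp
  rw [e2]
  exact h

theorem prop_of_grp {d : ℕ} {ω : (Fin d → ℤ) → ℝ} {W : NB.UG (NB.L2 (NB.Site d))}
    (hW : NB.IsGrp (-1) (fun x => 2 * d + ω x) W) : IsPropagator ω (fun t u => W.U t u) := by
  refine ⟨W.zero', W.norm', fun u t x => ?_⟩
  have h := (hW u).2 t x
  have e := NB.FIN.hop_eq ω (fun k => (W.U t u) k) x
  have e3 : H ω (fun k => (W.U t u) k) x = -(∑ i : Fin d,
        (((W.U t u) (x + Pi.single i 1) - (W.U t u) x) +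
          ((W.U t u) (x - Pi.single i 1) - (W.U t u) x))) + (ω x : ℂ) * (W.U t u) x := rfl
  rw [e3, ← e]
  simpa using h

theorem prop_eq {d : ℕ} {ω : (Fin d → ℤ) → ℝ} {W : NB.UG (NB.L2 (NB.Site d))}
    (hW : NB.IsGrp (-1) (fun x => 2 * d + ω x) W) {U : ℝ → L2 d → L2 d}
    (hU : IsPropagator ω U) (t : ℝ) (u : L2 d) : U t u = W.U t u := by
  have h := NB.ALL.a_UN d (-1) _ W hW (fun t => U t u) (fun _ => 0)
    continuous_const (sol_of_prop hU u) t
  simpa [hU.zero u] using h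

/-- the bounded operator -/
noncomputable def toOp {d : ℕ} (A : L2 d → L2 d)
    (hl : ∀ (c : ℂ) (u w : L2 d), A (c • u + w) = c • A u + A w)
    (hb : ∃ M : ℝ, ∀ u, ‖A u‖ ≤ M * ‖u‖) : L2 d →L[ℂ] L2 d :=
  have h0 : A 0 = 0 := by
    have h := hl (-1) 0 0
    simpa using h
  LinearMap.mkContinuousOfExistsBound
    { toFun := A
      map_add' := fun u w => by
        have h := hl 1 u w
        rwa [one_smul, one_smul] at h
      map_smul' := fun c u => by
        have h := hl c u 0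
        rwa [add_zero, h0, add_zero] at h } hb

theorem obs_of {d : ℕ} {μ : Measure ℝ} [IsProbabilityMeasure μ] {A : Pot d → L2 d → L2 d}
    (hA : IsObservable μ A) :
    ∃ (v : Pot d → L2 d →L[ℂ] L2 d) (M : ℝ), (∀ᵐ ω ∂(iid d μ), ∀ u, v ω u = A ω u) ∧
      Pool.Agent.R988.NQ.Fld M v ∧ Pool.Agent.R988.NQ.Fld M (Pool.Agent.R988.NQ.adjF v) := by
  obtain ⟨M, hM⟩ := hA.bounded
  have hM0 : 0 ≤ M := by
    have h1 := hM 0 (NB.dl 0)
    rw [NB.STAT.norm_dl, mul_one] at h1
    exact (norm_nonneg _).trans h1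
  obtain ⟨W, hWA⟩ : ∃ W : Pot d → L2 d →L[ℂ] L2 d, ∀ ω u, W ω u = A ω u :=
    ⟨fun ω => toOp (A ω) (hA.linear ω) ⟨M, hM ω⟩, fun ω u => rfl⟩
  have hcv : ∀ᵐ V ∂(NB.PP d μ), ∀ (z : NB.Site d)
      (S : NB.L2 (NB.Site d) →L[ℂ] NB.L2 (NB.Site d)), NB.IsShift z S → ∀ ψ,
        W (fun y => V (y + z)) (S ψ) = S (W V ψ) := by
    have h1 : ∀ᵐ ω ∂(NB.PP d μ), CovariantAt A ω := hA.covariant
    filter_upwards [h1] with ω hω z S hS ψ
    ext j
    rw [hWA, hWA, hω z ψ (S ψ) (fun k => hS ψ k) j, hS]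
  have hmW : ∀ (u : L2 d) (j : Fin d → ℤ), Measurable fun ω => (W ω u) j := by
    intro u j
    simp only [hWA]
    exact hA.measurable u j
  obtain ⟨W', hW1, hW2, hW3, hW4⟩ := Pool.Agent.R988.NQ.fix_cov hmW hcv
  have hb' : ∀ V ψ, ‖W' V ψ‖ ≤ M * ‖ψ‖ := by
    intro V ψ
    rcases hW1 V with h | h
    · rw [h, hWA]
      exact hM V ψ
    · rw [h, zero_apply, norm_zero]
      positivity
  refine ⟨W', M, ?_, Pool.Agent.R988.NQ.flds hb' hW2 hW3⟩
  have h2 : ∀ᵐ ω ∂(NB.PP d μ), ∀ u, W' ω u = A ω u := by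
    filter_upwards [hW4] with ω hω u
    rw [hω, hWA]
  exact h2

/-- the group as a family of bounded operators -/
noncomputable def toUG {d : ℕ} (G : ℝ → L2 d → L2 d) (hG : IsInvariantDynamics G) :
    NB.UG (NB.L2 (NB.Site d)) where
  U t := toOp (G t) (hG.linear t) ⟨1, fun u => by
    rw [one_mul]
    exact (hG.norm t u).le⟩
  zero' := hG.zero
  add' := hG.add
  norm' := hG.norm
  cont' := hG.cont

/-- Let `μ` be a law which is not a point mass. For every potential the unitary group exists and is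
unique. Let `G` be a translation invariant dynamics with purely absolutely continuous spectrum (or
let `μ` have a density); for `d ≥ 1` the free dynamics is of this kind. Between the two dynamics
the averages of all observables vanish in mean square, the matrix elements vanish in the mean, both
in either order, and there are no intertwiners, in either direction. -/
theorem result (d : ℕ) (μ : Measure ℝ) [IsProbabilityMeasure μ] (hμ : ∀ r : ℝ, μ {r} ≠ 1) :
    (∀ ω : Pot d, ∃! U : ℝ → L2 d → L2 d, IsPropagator ω U) ∧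
    (∀ G : ℝ → L2 d → L2 d, IsPropagator (fun _ => 0) G →
      IsInvariantDynamics G ∧ (1 ≤ d → ∀ u, IsAC G u)) ∧
    ∀ U : Pot d → ℝ → L2 d → L2 d, (∀ ω, IsPropagator ω (U ω)) →
    ∀ G : ℝ → L2 d → L2 d, IsInvariantDynamics G → ((∀ u, IsAC G u) ∨ μ ≪ volume) →
      (∀ A : Pot d → L2 d → L2 d, IsObservable μ A → ∀ ψ, MemLp ψ 2 (iid d μ) →
        Tendsto (fun T : ℝ => ∫⁻ ω, ‖average G (A ω) (U ω) T (ψ ω)‖ₑ ^ 2 ∂(iid d μ))
          atTop (𝓝 0) ∧
        Tendsto (fun T : ℝ => ∫⁻ ω, ‖average (U ω) (A ω) G T (ψ ω)‖ₑ ^ 2 ∂(iid d μ))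
          atTop (𝓝 0) ∧
        ∀ Z, MemLp Z 2 (iid d μ) →
          Tendsto (fun T : ℝ => T⁻¹ * ∫ s in (0 : ℝ)..T,
            ‖element μ (fun _ => G) A U Z ψ s‖ ^ 2) atTop (𝓝 0) ∧
          Tendsto (fun T : ℝ => T⁻¹ * ∫ s in (0 : ℝ)..T,
            ‖element μ U A (fun _ => G) Z ψ s‖ ^ 2) atTop (𝓝 0)) ∧
      ∀ W : Pot d → L2 d → L2 d, IsObservable μ W →
        ((∀ᵐ ω ∂(iid d μ), ∀ t u, W ω (U ω t u) = G t (W ω u)) ∨
          (∀ᵐ ω ∂(iid d μ), ∀ t u, W ω (G t u) = U ω t (W ω u))) →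
        ∀ᵐ ω ∂(iid d μ), ∀ u, W ω u = 0 := by
  choose ev hev using fun V : NB.Site d → ℝ => NB.ALL.a_EX d (-1) V
  have hpe : ∀ (ω : Pot d) (U : ℝ → L2 d → L2 d), IsPropagator ω U → ∀ t u,
      U t u = (ev (offs (2 * d) ω)).U t u := fun ω U hU t u => prop_eq (hev _) hU t u
  refine ⟨fun ω => ⟨fun t u => (ev (offs (2 * d) ω)).U t u, prop_of_grp (hev _),
    fun U hU => ?_⟩, fun G hG => ?_, fun U hU G hG hac => ?_⟩
  · funext t u
    exact hpe ω U hU t u
  · have e0 : offs (2 * d) (fun _ : NB.Site d => (0 : ℝ)) = fun _ => (2 * d : ℝ) := by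
      funext x
      unfold offs
      ring
    have hGe : ∀ t u, G t u = (ev fun _ => (2 * d : ℝ)).U t u := by
      intro t u
      rw [hpe _ G hG t u, e0]
    refine ⟨⟨fun t c u w => ?_, hG.norm, hG.zero, fun s t u => ?_, fun u => ?_,
      fun z t u w hw x => ?_⟩, fun hd u => ⟨Pool.Agent.K7.H83.SI.sm (ev fun _ => (2 * d : ℝ)) u,
        ⟨inferInstance, fun t => ?_⟩, free_ac hd hev u⟩⟩
    · simp only [hGe]
      rw [map_add, map_smul]
    · simp only [hGe]
      exact (ev _).add' s t u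
    · simp only [hGe]
      exact (ev _).cont' u
    · obtain ⟨S, hS⟩ := (NB.t_OPS d).1 z
      have hSw : S u = w := by
        ext y
        rw [hS, hw]
      have h1 := NB.ALL.a_COV d (-1) ev hev z S hS (fun _ => (2 * d : ℝ)) t u
      rw [hGe, hGe, ← hSw]
      have h2 : (ev fun _ => (2 * d : ℝ)).U t (S u) = S ((ev fun _ => (2 * d : ℝ)).U t u) := h1
      rw [h2, hS]
    · rw [hGe]
      exact Pool.Agent.K7.H83.SI.sm_inner _ u t
  have hUe : ∀ ω t u, U ω t u = (ev (offs (2 * d) ω)).U t u := fun ω t u => hpe ω _ (hU ω) t u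
  set R := toUG G hG with hR
  have hRG : ∀ t u, R.U t u = G t u := fun t u => rfl
  have hinv : RInv R := by
    intro z S hS t φ
    ext x
    rw [hRG, hRG, hG.invariant z t φ (S φ) (fun x => hS φ x) x, hS]
  have hyp : Hyp R μ := by
    rcases hac with h | h
    · refine Or.inr ⟨hμ, fun φ => ?_⟩
      obtain ⟨m, ⟨hm1, hm2⟩, hm3⟩ := h φ
      rw [Pool.Agent.K7.H83.SI.sm_eq (W := R) (u := φ) (m := m) ⟨hm1, fun t => hm2 t⟩]
      exact hm3
    · exact Or.inl h
  refine ⟨fun A hA ψ hψ => ?_, fun W hW hi => ?_⟩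
  · obtain ⟨v, M, hvA, hO, hO'⟩ := obs_of hA
    have h1 := mainO hev hinv hyp (2 * d) hO hO' (ψ := ψ) hψ
    refine ⟨?_, ?_, fun Z hZ => ⟨?_, ?_⟩⟩
    · refine Tendsto.congr (fun T => ?_) h1.2
      refine lintegral_congr_ae ?_
      filter_upwards [hvA] with ω hω
      congr 2
      unfold avR average
      congr 1
      refine intervalIntegral.integral_congr fun s _ => ?_
      show ph 0 s • (R.U (-s) (v ω ((ev (offs (2 * d) ω)).U s (ψ ω)))) = _
      rw [hω, ← hUe, hRG]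
      unfold ph
      simp
    · refine Tendsto.congr (fun T => ?_) (mainO_rev' hev hinv hyp (2 * d) hO hO' (ψ := ψ) hψ)
      refine lintegral_congr_ae ?_
      filter_upwards [hvA] with ω hω
      congr 2
      unfold avR average
      congr 1
      refine intervalIntegral.integral_congr fun s _ => ?_
      show ph 0 s • ((ev (offs (2 * d) ω)).U (-s) (v ω (R.U s (ψ ω)))) = _
      rw [hω, ← hUe, hRG]
      unfold ph
      simp
    · refine Tendsto.congr (fun T => ?_) (h1.1 Z hZ)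
      congr 1
      refine intervalIntegral.integral_congr fun s _ => ?_
      show ‖_‖ ^ 2 = ‖_‖ ^ 2
      congr 2
      refine integral_congr_ae ?_
      filter_upwards [hvA] with ω hω
      show ⟪Z ω, R.U (-s) (v ω ((ev (offs (2 * d) ω)).U s (ψ ω)))⟫_ℂ = _
      rw [hω, ← hUe, hRG]
    · refine Tendsto.congr (fun T => ?_) (mainO_rev hev hinv hyp (2 * d) hO hO' hψ hZ)
      congr 1
      refine intervalIntegral.integral_congr fun s _ => ?_
      show ‖_‖ ^ 2 = ‖_‖ ^ 2
      congr 2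
      refine integral_congr_ae ?_
      filter_upwards [hvA] with ω hω
      show ⟪Z ω, (ev (offs (2 * d) ω)).U (-s) (v ω (R.U s (ψ ω)))⟫_ℂ = _
      rw [hω, ← hUe, hRG]
  · obtain ⟨v, M, hvA, hO, hO'⟩ := obs_of hW
    have hfin : (∀ᵐ ω ∂(NB.PP d μ), ∀ u, v ω u = 0) → ∀ᵐ ω ∂(iid d μ), ∀ u, W ω u = 0 := by
      intro h
      have h' : ∀ᵐ ω ∂(iid d μ), ∀ u, v ω u = 0 := h
      filter_upwards [h', hvA] with ω h1 h2 u
      rw [← h2]
      exact h1 u
    refine hfin ?_
    have hvA' : ∀ᵐ ω ∂(NB.PP d μ), ∀ u, v ω u = W ω u := hvA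
    rcases hi with hi | hi
    · refine no_inter hev hinv hyp (2 * d) hO hO' ?_
      have hi' : ∀ᵐ ω ∂(NB.PP d μ), ∀ t u, W ω (U ω t u) = G t (W ω u) := hi
      filter_upwards [hi', hvA'] with ω e1 e2 t u
      rw [e2, e2, ← hUe, e1, hRG]
    · refine no_inter' hev hinv hyp (2 * d) hO hO' ?_
      have hi' : ∀ᵐ ω ∂(NB.PP d μ), ∀ t u, W ω (G t u) = U ω t (W ω u) := hi
      filter_upwards [hi', hvA'] with ω e1 e2 t u
      rw [e2, e2, ← hUe, hRG, e1]

end Pool.Agent.Results.MP_d0f69c_mp.NoIntertwiners
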